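import Pool.Agent.UL7.Stmts
import Pool.Agent.Helper15_UL5.STC
import Pool.Agent.Helper36_UL3.SEC

/-!
# Squad UL7 (MP_c7c9bf_co), row STP: the standard position
-/

set_option autoImplicit false

open MeasureTheory Set Pointwise

namespace Pool.Agent.UL7.H25

open Pool.Agent.UL3 Pool.Agent.UL4 Pool.Agent.UL5 Pool.Agent.UL7

theorem exists_T (n w : E3) (h : inner ℝ w n = 1) :
    ∃ T : E3 ≃L[ℝ] E3, ∀ x, (T x) 2 = inner ℝ x n := by
  obtain ⟨T, h1, h2⟩ := Pool.Agent.UL5.H15.exists_T n w (by rw [h]; exact one_ne_zero)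
  refine ⟨T, fun x => ?_⟩
  have h3 : inner ℝ (x - (inner ℝ x n : ℝ) • w) n = 0 := by
    rw [inner_sub_left, inner_smul_left, h]
    simp
  have h4 := h2 _ h3
  rw [map_sub, map_smul, h1] at h4
  have h5 : (T x - (inner ℝ x n : ℝ) • up 0 1) 2 = (T x) 2 - (inner ℝ x n : ℝ) * (up 0 1) 2 := rfl
  rw [h5, up_two, mul_one] at h4
  linarith

theorem stp (hTIN : TinStmt) : StpStmt := by
  intro D c n r hDc hDv hDi hDs hn1 hr hmid
  have hcD : c ∈ D := by
    obtain ⟨x, hx⟩ := hDi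
    have hx' := interior_subset hx
    have h1 := hDv hx' (hDs x hx') (a := 1 / 2) (b := 1 / 2) (by norm_num) (by norm_num)
      (by norm_num)
    have h2 : (1 / 2 : ℝ) • x + (1 / 2 : ℝ) • ((2 : ℝ) • c - x) = c := by module
    rwa [h2] at h1
  obtain ⟨y0, hy0, -, -, hy1, -, -⟩ := hmid c hcD (by rw [sub_self, inner_zero_left])
  obtain ⟨T, hT⟩ := exists_T n (y0 - c) hy1
  set f : E3 → E3 := fun x => T (x - c) with hf
  set D' : Set E3 := f '' D with hD'
  have hcont : Continuous f := T.continuous.comp (continuous_id.sub continuous_const)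
  have hopen : IsOpenMap f :=
    T.toHomeomorph.isOpenMap.comp (Homeomorph.subRight c).isOpenMap
  have hSB : SB D' := by
    refine ⟨hDc.image hcont, ?_, ?_, ?_⟩
    · rintro _ ⟨x, hx, rfl⟩ _ ⟨y, hy, rfl⟩ a b ha hb hab
      refine ⟨a • x + b • y, hDv hx hy ha hb hab, ?_⟩
      have h1 : a • x + b • y - c = a • (x - c) + b • (y - c) := by
        have h2 : c = (a + b) • c := by rw [hab, one_smul]
        conv_lhs => rw [h2]
        module
      show T (a • x + b • y - c) = a • T (x - c) + b • T (y - c)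
      rw [h1, map_add, map_smul, map_smul]
    · rintro _ ⟨x, hx, rfl⟩
      refine ⟨(2 : ℝ) • c - x, hDs x hx, ?_⟩
      show T ((2 : ℝ) • c - x - c) = -T (x - c)
      rw [← map_neg]
      congr 1
      module
    · obtain ⟨x, hx⟩ := hDi
      exact ⟨f x, hopen.image_interior_subset D ⟨x, hx, rfl⟩⟩
  have hlift : ∀ y ∈ D, inner ℝ (y - c) n = 1 →
      up ((T (y - c)) 0, (T (y - c)) 1) 1 = T (y - c) := by
    intro y _ h1
    have h2 := up_self (T (y - c))
    rw [hT, h1] at h2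
    exact h2
  have hq : ∀ p ∈ sec D' 0, ∃ q ∈ dh (sec D' 1), p = r • q := by
    intro p hp
    obtain ⟨x, hx, hxp⟩ := hp
    have hxp' : T (x - c) = up p 0 := hxp
    have h0 : inner ℝ (x - c) n = 0 := by rw [← hT, hxp', up_two]
    obtain ⟨y, hy, z, hz, hy1, hz1, hxyz⟩ := hmid x hx h0
    have ey := hlift y hy hy1
    have ez := hlift z hz hz1
    set a : ℝ × ℝ := ((T (y - c)) 0, (T (y - c)) 1) with ha
    set b : ℝ × ℝ := ((T (z - c)) 0, (T (z - c)) 1) with hb
    have haD : a ∈ sec D' 1 := by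
      show up a 1 ∈ D'
      rw [ey]
      exact ⟨y, hy, rfl⟩
    have hbD : b ∈ sec D' 1 := by
      show up b 1 ∈ D'
      rw [ez]
      exact ⟨z, hz, rfl⟩
    refine ⟨(1 / 2 : ℝ) • (a - b), ⟨a, haD, b, hbD, rfl⟩, ?_⟩
    have h3 : x - c = (r / 2) • ((y - c) - (z - c)) := by
      rw [hxyz]
      module
    rw [h3, map_smul, map_sub, ← ey, ← ez] at hxp'
    have h4 : (r / 2) • (up a 1 - up b 1) = up ((r / 2) • (a - b)) 0 := by
      have h5 : up a 1 - up b 1 = up (a - b) 0 := by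
        rw [sub_eq_add_neg, up_neg, up_add, ← sub_eq_add_neg]
        congr 1
        ring
      rw [h5, up_smul, mul_zero]
    rw [h4] at hxp'
    have h6 : p = (r / 2) • (a - b) := by
      have e0 := congrArg (fun v : E3 => ((v 0, v 1) : ℝ × ℝ)) hxp'
      exact e0.symm
    rw [h6, smul_smul]
    congr 1
    ring
  obtain ⟨s1, s2, -, -, -⟩ := Pool.Agent.UL3.H36.sec D' hSB
  refine ⟨T, hSB, ?_, ?_, hq⟩
  · rintro _ ⟨x, hx, rfl⟩
    show (T (x - c)) 2 ≤ 1
    rw [hT]
    exact hn1 x hx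
  · apply hTIN _ (s2 1).1 (s2 1).2.1
    have h1 : sec D' 0 ⊆ r • dh (sec D' 1) := by
      intro p hp
      obtain ⟨q, hq1, hq2⟩ := hq p hp
      exact ⟨q, hq1, hq2.symm⟩
    have h2 := interior_mono h1
    rw [interior_smul₀ hr.ne'] at h2
    obtain ⟨p, hp⟩ := s1.int
    obtain ⟨q, hq1, -⟩ := h2 hp
    exact ⟨q, hq1⟩

end Pool.Agent.UL7.H25
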